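import Pool.Agent.R639.FZ.P_FIN
import Pool.Agent.R639.FZ.P_ALT
import Pool.Agent.R639.FZ.P_ANA
import Pool.Agent.R639.FZ.P_ARITH
import Pool.Agent.R639.FZ.P_BLK
import Pool.Agent.R639.FZ.P_CNT
import Pool.Agent.R639.FZ.P_CONJ
import Pool.Agent.R639.FZ.P_CONJN
import Pool.Agent.R639.FZ.P_DIM
import Pool.Agent.R639.FZ.P_FAB
import Pool.Agent.R639.FZ.P_FIX
import Pool.Agent.R639.FZ.P_GRAPH1
import Pool.Agent.R639.FZ.P_GRAPH2
import Pool.Agent.R639.FZ.P_LIM
import Pool.Agent.R639.FZ.P_MOVE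
import Pool.Agent.R639.FZ.P_NUM
import Pool.Agent.R639.FZ.P_OCC1
import Pool.Agent.R639.FZ.P_OCC2
import Pool.Agent.R639.FZ.P_PAIR
import Pool.Agent.R639.FZ.P_PAIRT
import Pool.Agent.R639.FZ.P_PRODT
import Pool.Agent.R639.FZ.P_STD
import Pool.Agent.R639.FZ.P_TEN
import Pool.Agent.R639.FZ.P_TRIV
import Pool.Agent.R639.FZ.P_UNIV

/-!
# MP_810665_al: an infinite FAb profinite group whose representation zeta function is defined and
nonzero at `-2`

`MRep G n` are the complex matrix representations of degree `n`, `Irred` and `Iso` are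
irreducibility and isomorphism, `CClass G n` is the set of isomorphism classes of continuous
irreducible representations of degree `n`, `rc G n` is its cardinality, and `FAb G` says that every
open subgroup has finite topological abelianisation.
-/

namespace Pool.Agent.Results.MP_810665_al.Disproof

open Pool.Agent.R639.FZ

/-- Two meromorphic continuations of the same function have the same value at a common point of
analyticity (identity theorem). -/
theorem unique_value {α : ℝ} {L Z Z' : ℂ → ℂ} {U : Set ℂ} (hU : IsPreconnected U)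
    (hsub : {s : ℂ | α < s.re} ⊆ U) (h2 : (-2 : ℂ) ∈ U) (hZ : ∀ s : ℂ, MeromorphicAt Z s)
    (hZL : ∀ s : ℂ, α < s.re → Z s = L s) (hZa : AnalyticAt ℂ Z (-2))
    (hZ' : MeromorphicOn Z' U) (hZL' : ∀ s : ℂ, α < s.re → Z' s = L s)
    (hZa' : AnalyticAt ℂ Z' (-2)) : Z' (-2) = Z (-2) := by
  have hmer : MeromorphicOn (Z' - Z) U := fun s hs => (hZ' s hs).sub (hZ s)
  set s₀ : ℂ := ((α + 1 : ℝ) : ℂ) with hs₀
  have hre : α < s₀.re := by rw [hs₀, Complex.ofReal_re]; linarith
  have h0 : meromorphicOrderAt (Z' - Z) s₀ = ⊤ := by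
    rw [meromorphicOrderAt_eq_top_iff]
    refine Filter.Eventually.filter_mono nhdsWithin_le_nhds ?_
    have hopen : IsOpen {s : ℂ | α < s.re} := isOpen_lt continuous_const Complex.continuous_re
    filter_upwards [hopen.mem_nhds hre] with s hs
    rw [Pi.sub_apply, hZL s hs, hZL' s hs, sub_self]
  have h1 : meromorphicOrderAt (Z' - Z) (-2) = ⊤ := by
    by_contra hne
    exact MeromorphicOn.meromorphicOrderAt_ne_top_of_isPreconnected hmer hU h2 (hsub hre) hne h0
  rw [meromorphicOrderAt_eq_top_iff] at h1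
  have hc : ContinuousAt (Z' - Z) (-2) := hZa'.continuousAt.sub hZa.continuousAt
  have h3 : Filter.Tendsto (Z' - Z) (nhdsWithin (-2) {(-2 : ℂ)}ᶜ) (nhds ((Z' - Z) (-2))) :=
    hc.tendsto.mono_left nhdsWithin_le_nhds
  have h4 : Filter.Tendsto (Z' - Z) (nhdsWithin (-2) {(-2 : ℂ)}ᶜ) (nhds 0) := by
    refine Filter.Tendsto.congr' ?_ tendsto_const_nhds
    filter_upwards [h1] with s hs
    exact hs.symm
  have h5 := tendsto_nhds_unique h3 h4
  rw [Pi.sub_apply] at h5
  exact sub_eq_zero.1 h5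

/-- There is an infinite FAb profinite group `G` with finitely many continuous irreducible
representations of every degree, whose representation zeta function `∑ r_n(G) n^(-s)` converges on
a right half-plane and extends to a meromorphic function `Z` on the whole complex plane that is
analytic and nonzero at `-2`; moreover every meromorphic continuation to a connected open set
containing the half-plane and `-2`, analytic at `-2`, has the same nonzero value at `-2`. -/
theorem result : ∃ (G : Type) (_ : Group G) (_ : TopologicalSpace G) (_ : IsTopologicalGroup G)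
    (_ : CompactSpace G) (_ : T2Space G) (_ : TotallyDisconnectedSpace G),
      Infinite G ∧ FAb G ∧ (∀ n : ℕ, Finite (CClass G n)) ∧
      ∃ α : ℝ, (∀ s : ℂ, α < s.re → LSeriesSummable (fun n => (rc G n : ℂ)) s) ∧
        ∃ Z : ℂ → ℂ, (∀ s : ℂ, MeromorphicAt Z s) ∧
          (∀ s : ℂ, α < s.re → Z s = LSeries (fun n => (rc G n : ℂ)) s) ∧
          AnalyticAt ℂ Z (-2) ∧ Z (-2) ≠ 0 ∧
          ∀ (U : Set ℂ) (Z' : ℂ → ℂ), IsOpen U → IsConnected U → {s : ℂ | α < s.re} ⊆ U →
            (-2 : ℂ) ∈ U → MeromorphicOn Z' U →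
            (∀ s : ℂ, α < s.re → Z' s = LSeries (fun n => (rc G n : ℂ)) s) →
            AnalyticAt ℂ Z' (-2) → Z' (-2) = Z (-2) := by
  have hCNT : S_CNT := t_CNT (t_GRAPH1 t_UNIV) (t_GRAPH2 t_UNIV) t_CONJ
  have hDIM : S_DIM := t_DIM t_OCC1 t_OCC2 t_MOVE (t_FIX t_OCC1) (t_PAIRT t_OCC1)
  have hALT : S_ALT := t_ALT hDIM t_PAIR hCNT t_CONJ t_CONJN t_STD t_NUM t_WED t_BLK
  have hPR : S_PRODT := t_PRODT t_WED t_BLK t_TEN
  obtain ⟨G, i1, i2, i3, i4, i5, i6, h1, h2, h3, α, h4, Z, h5, h6, h7, h8⟩ :=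
    t_FIN hALT hPR t_WED t_BLK t_TRIV t_LIM t_FAB t_ARITH t_ANA
  exact ⟨G, i1, i2, i3, i4, i5, i6, h1, h2, h3, α, h4, Z, h5, h6, h7, h8,
    fun U Z' _ hUc hsub hm2 hm hL ha => unique_value hUc.isPreconnected hsub hm2 h5 h6 h7 hm hL ha⟩

end Pool.Agent.Results.MP_810665_al.Disproof
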